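import Pool.Agent.Y63.AWC.Defs

/-!
# Fixed points of the augmentation module of `G/C` and of its dual
-/

open scoped BigOperators Classical

set_option linter.unusedSectionVars false

noncomputable section

namespace Pool.Agent.X209.AWD

open Pool.Agent.Y63.AWC

section

variable {p : ℕ} {G : Type} [Group G] [Finite G] {C : Subgroup G}

/-- `h` is a homomorphism from `G` to the additive group of `𝔽_p` which vanishes on `C` -/
structure IsHomOn (C : Subgroup G) (h : G → ZMod p) : Prop where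
  mul : ∀ a b : G, h (a * b) = h a + h b
  zero : ∀ c ∈ C, h c = 0

lemma IsHomOn.one {h : G → ZMod p} (hh : IsHomOn C h) : h 1 = 0 := hh.zero 1 C.one_mem

lemma IsHomOn.inv {h : G → ZMod p} (hh : IsHomOn C h) (a : G) : h a⁻¹ = - h a := by
  have h1 := hh.mul a a⁻¹
  rw [mul_inv_cancel, hh.one] at h1
  exact (neg_eq_of_add_eq_zero_right h1.symm).symm

/-- the function on `G/C` -/
def IsHomOn.lift {h : G → ZMod p} (hh : IsHomOn C h) : G ⧸ C → ZMod p :=
  Quotient.lift h (by
    intro a b hab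
    have h1 : a⁻¹ * b ∈ C := QuotientGroup.leftRel_apply.mp hab
    have h2 := hh.zero _ h1
    rw [hh.mul, hh.inv] at h2
    exact (neg_add_eq_zero.mp h2))

lemma IsHomOn.lift_mk {h : G → ZMod p} (hh : IsHomOn C h) (a : G) :
    hh.lift (a : G ⧸ C) = h a := rfl

lemma IsHomOn.lift_smul {h : G → ZMod p} (hh : IsHomOn C h) (g : G) (x : G ⧸ C) :
    hh.lift (g • x) = h g + hh.lift x := by
  induction x using QuotientGroup.induction_on with
  | H a => exact hh.mul g a

lemma aug_add_apply (f f' : AugModule p C) (x : G ⧸ C) : (f + f').1 x = f.1 x + f'.1 x := rfl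

lemma aug_smul_apply (c : ZMod p) (f : AugModule p C) (x : G ⧸ C) : (c • f).1 x = c * f.1 x := rfl

lemma aug_zero_apply (x : G ⧸ C) : (0 : AugModule p C).1 x = 0 := rfl

lemma augRep_apply (g : G) (f : AugModule p C) (x : G ⧸ C) :
    (augRep p C g f).1 x = f.1 (g⁻¹ • x) := rfl

lemma aug_sum [Fintype (G ⧸ C)] (f : AugModule p C) : ∑ x, f.1 x = 0 := by
  have h : ∑ᶠ x, f.1 x = 0 := f.2
  rwa [finsum_eq_sum_of_fintype] at h

lemma aug_sum_apply {ι : Type} (s : Finset ι) (F : ι → AugModule p C) (x : G ⧸ C) :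
    (∑ i ∈ s, F i).1 x = ∑ i ∈ s, (F i).1 x := by
  induction s using Finset.induction_on with
  | empty => rfl
  | insert a s ha ih => rw [Finset.sum_insert ha, Finset.sum_insert ha, aug_add_apply, ih]

/-- the element `δ_x - δ_y` -/
def dd (p : ℕ) {C : Subgroup G} (x y : G ⧸ C) : AugModule p C :=
  ⟨fun z => (if z = x then 1 else 0) - (if z = y then 1 else 0), by
    change ∑ᶠ z, ((if z = x then (1 : ZMod p) else 0) - (if z = y then 1 else 0)) = 0
    have : Fintype (G ⧸ C) := Fintype.ofFinite _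
    rw [finsum_eq_sum_of_fintype, Finset.sum_sub_distrib]
    simp⟩

lemma dd_apply (x y z : G ⧸ C) :
    (dd p x y).1 z = (if z = x then 1 else 0) - (if z = y then 1 else 0) := rfl

lemma dd_add (x y z : G ⧸ C) : dd p x y + dd p y z = dd p x z := by
  apply Subtype.ext
  funext t
  rw [aug_add_apply, dd_apply, dd_apply, dd_apply]
  ring

lemma act_dd (g : G) (x y : G ⧸ C) : augRep p C g (dd p x y) = dd p (g • x) (g • y) := by
  apply Subtype.ext
  funext t
  rw [augRep_apply, dd_apply, dd_apply]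
  have e : ∀ z : G ⧸ C, g⁻¹ • t = z ↔ t = g • z := fun z => inv_smul_eq_iff
  simp only [e]

lemma expand_aug [Fintype (G ⧸ C)] (y : G ⧸ C) (f : AugModule p C) :
    f = ∑ x, f.1 x • dd p x y := by
  apply Subtype.ext
  funext t
  rw [aug_sum_apply]
  simp only [aug_smul_apply, dd_apply, mul_sub]
  rw [Finset.sum_sub_distrib, ← Finset.sum_mul, aug_sum, zero_mul, sub_zero]
  simp

/-- the functional given by a homomorphism -/
def lam [Fintype (G ⧸ C)] {h : G → ZMod p} (hh : IsHomOn C h) :
    Module.Dual (ZMod p) (AugModule p C) where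
  toFun f := ∑ x, hh.lift x * f.1 x
  map_add' f f' := by
    rw [← Finset.sum_add_distrib]
    refine Finset.sum_congr rfl fun x _ => ?_
    rw [aug_add_apply, mul_add]
  map_smul' c f := by
    rw [RingHom.id_apply, smul_eq_mul, Finset.mul_sum]
    refine Finset.sum_congr rfl fun x _ => ?_
    rw [aug_smul_apply]
    ring

lemma lam_apply [Fintype (G ⧸ C)] {h : G → ZMod p} (hh : IsHomOn C h) (f : AugModule p C) :
    lam hh f = ∑ x, hh.lift x * f.1 x := rfl

lemma lam_dd [Fintype (G ⧸ C)] {h : G → ZMod p} (hh : IsHomOn C h) (x y : G ⧸ C) :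
    lam hh (dd p x y) = hh.lift x - hh.lift y := by
  rw [lam_apply]
  simp only [dd_apply, mul_sub]
  rw [Finset.sum_sub_distrib]
  simp

lemma lam_act [Fintype (G ⧸ C)] {h : G → ZMod p} (hh : IsHomOn C h) (g : G) (f : AugModule p C) :
    lam hh (augRep p C g f) = lam hh f := by
  rw [lam_apply, lam_apply]
  have h1 : ∑ x, hh.lift x * (augRep p C g f).1 x = ∑ x, hh.lift (g • x) * f.1 x := by
    refine (Fintype.sum_equiv (MulAction.toPerm g) _ _ fun x => ?_).symm
    rw [MulAction.toPerm_apply, augRep_apply, inv_smul_smul]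
  rw [h1]
  simp only [hh.lift_smul, add_mul]
  rw [Finset.sum_add_distrib, ← Finset.mul_sum, aug_sum, mul_zero, zero_add]

/-- invariant functionals on the augmentation module are homomorphisms which vanish on `C` -/
def dualEquiv [Fintype (G ⧸ C)] :
    {h : G → ZMod p // IsHomOn C h} ≃
      {l : Module.Dual (ZMod p) (AugModule p C) // ∀ g : G, ∀ f, l (augRep p C g f) = l f} where
  toFun h := ⟨lam h.2, fun g f => lam_act h.2 g f⟩
  invFun l := ⟨fun g => l.1 (dd p (g : G ⧸ C) ((1 : G) : G ⧸ C)), by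
    refine ⟨fun a b => ?_, fun c hc => ?_⟩
    · have h1 : dd p ((a * b : G) : G ⧸ C) ((1 : G) : G ⧸ C) =
          augRep p C a (dd p (b : G ⧸ C) ((1 : G) : G ⧸ C)) + dd p (a : G ⧸ C) ((1 : G) : G ⧸ C) := by
        rw [act_dd]
        have e1 : a • (b : G ⧸ C) = ((a * b : G) : G ⧸ C) := rfl
        have e2 : a • ((1 : G) : G ⧸ C) = (a : G ⧸ C) := by
          change ((a * 1 : G) : G ⧸ C) = _
          rw [mul_one]
        rw [e1, e2, dd_add]
      rw [h1, map_add, l.2, add_comm]
    · have h1 : (c : G ⧸ C) = ((1 : G) : G ⧸ C) := by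
        rw [QuotientGroup.eq]
        simpa using hc
      have h2 : dd p ((1 : G) : G ⧸ C) ((1 : G) : G ⧸ C) = 0 := by
        apply Subtype.ext
        funext t
        rw [dd_apply, sub_self]
        rfl
      rw [h1, h2, map_zero]⟩
  left_inv h := by
    apply Subtype.ext
    funext g
    change lam h.2 (dd p (g : G ⧸ C) ((1 : G) : G ⧸ C)) = h.1 g
    rw [lam_dd, IsHomOn.lift_mk, IsHomOn.lift_mk, h.2.one, sub_zero]
  right_inv l := by
    apply Subtype.ext
    apply LinearMap.ext
    intro f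
    rw [expand_aug ((1 : G) : G ⧸ C) f, map_sum, map_sum]
    refine Finset.sum_congr rfl fun x _ => ?_
    rw [map_smul, map_smul, lam_dd]
    congr 1
    induction x using QuotientGroup.induction_on with
    | H a =>
      rw [IsHomOn.lift_mk, IsHomOn.lift_mk]
      have h2 : dd p ((1 : G) : G ⧸ C) ((1 : G) : G ⧸ C) = 0 := by
        apply Subtype.ext
        funext t
        rw [dd_apply, sub_self]
        rfl
      change l.1 (dd p (a : G ⧸ C) ((1 : G) : G ⧸ C)) - l.1 (dd p ((1 : G) : G ⧸ C) ((1 : G) : G ⧸ C))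
        = l.1 (dd p (a : G ⧸ C) ((1 : G) : G ⧸ C))
      rw [h2, map_zero, sub_zero]

/-- the constants -/
def fixedEquiv (hp : p ∣ C.index) :
    ZMod p ≃ {f : AugModule p C // ∀ g : G, augRep p C g f = f} where
  toFun c := ⟨⟨fun _ => c, by
    change ∑ᶠ _ : G ⧸ C, c = 0
    have : Fintype (G ⧸ C) := Fintype.ofFinite _
    rw [finsum_eq_sum_of_fintype, Finset.sum_const, Finset.card_univ, nsmul_eq_mul,
      ← Nat.card_eq_fintype_card]
    have h1 : ((Nat.card (G ⧸ C) : ℕ) : ZMod p) = 0 := (ZMod.natCast_eq_zero_iff _ _).mpr hp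
    rw [h1, zero_mul]⟩, fun g => rfl⟩
  invFun f := f.1.1 ((1 : G) : G ⧸ C)
  left_inv c := rfl
  right_inv f := by
    apply Subtype.ext
    apply Subtype.ext
    funext x
    change f.1.1 ((1 : G) : G ⧸ C) = f.1.1 x
    induction x using QuotientGroup.induction_on with
    | H a =>
      have h1 := congrArg (fun t : AugModule p C => t.1 (a : G ⧸ C)) (f.2 a)
      change f.1.1 (a⁻¹ • (a : G ⧸ C)) = f.1.1 (a : G ⧸ C) at h1
      have h2 : a⁻¹ • (a : G ⧸ C) = ((1 : G) : G ⧸ C) := by
        change ((a⁻¹ * a : G) : G ⧸ C) = _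
        rw [inv_mul_cancel]
      rw [← h1, h2]

end

end Pool.Agent.X209.AWD
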