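import Mathlib

/-!
# Common fixed points of two commuting operators on a module and on its dual
-/

open scoped BigOperators Classical

noncomputable section

namespace Pool.Agent.X209.AWD

section

variable {K V : Type} [Field K] [AddCommGroup V] [Module K V]

/-- the average of the powers of `X` -/
def avg (n : ℕ) (X : Module.End K V) : Module.End K V :=
  (n : K)⁻¹ • ∑ i ∈ Finset.range n, X ^ i

lemma mul_avg {n : ℕ} {X : Module.End K V} (hX : X ^ n = 1) : X * avg n X = avg n X := by
  unfold avg
  rw [mul_smul_comm, Finset.mul_sum]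
  congr 1
  have h1 : ∑ i ∈ Finset.range n, X * X ^ i = ∑ i ∈ Finset.range n, X ^ (i + 1) :=
    Finset.sum_congr rfl fun i _ => (pow_succ' X i).symm
  rw [h1]
  have h2 := Finset.sum_range_succ' (fun i => X ^ i) n
  have h3 := Finset.sum_range_succ (fun i => X ^ i) n
  rw [h3, hX, pow_zero] at h2
  exact (add_right_cancel h2).symm

lemma avg_apply_of_fixed {n : ℕ} (hn : (n : K) ≠ 0) {X : Module.End K V} {v : V} (hv : X v = v) :
    avg n X v = v := by
  have h1 : ∀ i : ℕ, (X ^ i) v = v := by
    intro i
    induction i with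
    | zero => rw [pow_zero, Module.End.one_apply]
    | succ i ih => rw [pow_succ, Module.End.mul_apply, hv, ih]
  unfold avg
  rw [LinearMap.smul_apply, LinearMap.sum_apply, Finset.sum_congr rfl fun i _ => h1 i,
    Finset.sum_const, Finset.card_range, ← Nat.cast_smul_eq_nsmul K, smul_smul,
    inv_mul_cancel₀ hn, one_smul]

lemma fixed_of_avg {n : ℕ} {X : Module.End K V} (hX : X ^ n = 1) {v : V} (hv : avg n X v = v) :
    X v = v := by
  conv_lhs => rw [← hv]
  rw [← Module.End.mul_apply, mul_avg hX, hv]

lemma commute_avg {n : ℕ} {X Y : Module.End K V} (hXY : Commute X Y) : Commute (avg n X) Y := by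
  unfold avg
  refine Commute.smul_left (Commute.sum_left _ _ _ fun i _ => ?_) _
  exact hXY.pow_left i

lemma avg_idem {n : ℕ} (hn : (n : K) ≠ 0) {X : Module.End K V} (hX : X ^ n = 1) (v : V) :
    avg n X (avg n X v) = avg n X v := by
  apply avg_apply_of_fixed hn
  rw [← Module.End.mul_apply, mul_avg hX]

/-- the operator whose kernel consists of the common fixed vectors -/
def kop (n : ℕ) (X Y : Module.End K V) : Module.End K V := avg n X * Y - 1

lemma mem_ker_kop {n : ℕ} (hn : (n : K) ≠ 0) {X Y : Module.End K V} (hX : X ^ n = 1)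
    (hXY : Commute X Y) (v : V) : v ∈ LinearMap.ker (kop n X Y) ↔ X v = v ∧ Y v = v := by
  unfold kop
  rw [LinearMap.mem_ker, LinearMap.sub_apply, Module.End.one_apply, sub_eq_zero]
  constructor
  · intro h
    have h1 : avg n X v = v := by
      conv_lhs => rw [← h]
      rw [Module.End.mul_apply, avg_idem hn hX, ← Module.End.mul_apply, h]
    refine ⟨fixed_of_avg hX h1, ?_⟩
    have h2 : (avg n X * Y) v = (Y * avg n X) v := by rw [(commute_avg hXY).eq]
    rw [h, Module.End.mul_apply, h1] at h2
    exact h2.symm
  · rintro ⟨h1, h2⟩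
    rw [Module.End.mul_apply, h2]
    exact avg_apply_of_fixed hn h1

lemma mem_ker_dual_kop {n : ℕ} (hn : (n : K) ≠ 0) {X Y : Module.End K V} (hX : X ^ n = 1)
    (hXY : Commute X Y) (f : Module.Dual K V) :
    f ∈ LinearMap.ker (kop n X Y).dualMap ↔ f ∘ₗ X = f ∧ f ∘ₗ Y = f := by
  have hfix : f ∘ₗ X = f → f ∘ₗ avg n X = f := by
    intro h
    have h1 : ∀ (i : ℕ) (v : V), f ((X ^ i) v) = f v := by
      intro i
      induction i with
      | zero => intro v; rw [pow_zero, Module.End.one_apply]
      | succ i ih =>
        intro v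
        rw [pow_succ, Module.End.mul_apply, ih]
        exact LinearMap.congr_fun h v
    ext v
    rw [LinearMap.comp_apply]
    unfold avg
    rw [LinearMap.smul_apply, LinearMap.sum_apply, map_smul, map_sum,
      Finset.sum_congr rfl fun i _ => h1 i v, Finset.sum_const, Finset.card_range,
      ← Nat.cast_smul_eq_nsmul K, smul_smul, inv_mul_cancel₀ hn, one_smul]
  rw [LinearMap.mem_ker]
  have hd : (kop n X Y).dualMap f = 0 ↔ f ∘ₗ (avg n X * Y) = f := by
    unfold kop
    constructor
    · intro h
      ext v
      have h1 := LinearMap.congr_fun h v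
      rw [LinearMap.dualMap_apply, LinearMap.sub_apply, map_sub, Module.End.one_apply,
        LinearMap.zero_apply, sub_eq_zero] at h1
      exact h1
    · intro h
      ext v
      have h1 := LinearMap.congr_fun h v
      rw [LinearMap.dualMap_apply, LinearMap.sub_apply, map_sub, Module.End.one_apply,
        LinearMap.zero_apply, sub_eq_zero]
      exact h1
  rw [hd]
  constructor
  · intro h
    have hc : f ∘ₗ (Y * avg n X) = f := by rw [← (commute_avg hXY).eq]; exact h
    have h1 : f ∘ₗ avg n X = f := by
      ext v
      have h2 := LinearMap.congr_fun hc (avg n X v)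
      rw [LinearMap.comp_apply, Module.End.mul_apply, avg_idem hn hX] at h2
      have h3 := LinearMap.congr_fun hc v
      rw [LinearMap.comp_apply, Module.End.mul_apply] at h3
      rw [LinearMap.comp_apply, ← h2, h3]
    constructor
    · ext v
      have h2 : f (X (avg n X v)) = f (avg n X v) := by
        rw [← Module.End.mul_apply, mul_avg hX]
      have h4 : X * avg n X = avg n X * X := ((commute_avg (Commute.refl X)).eq).symm
      rw [← Module.End.mul_apply, h4, Module.End.mul_apply] at h2
      have h5 := LinearMap.congr_fun h1 (X v)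
      have h6 := LinearMap.congr_fun h1 v
      rw [LinearMap.comp_apply] at h5 h6 ⊢
      rw [← h5, h2, h6]
    · ext v
      have h2 := LinearMap.congr_fun h v
      have h3 := LinearMap.congr_fun h1 (Y v)
      rw [LinearMap.comp_apply, Module.End.mul_apply] at h2
      rw [LinearMap.comp_apply] at h3 ⊢
      rw [← h3, h2]
  · rintro ⟨h1, h2⟩
    have h3 := hfix h1
    ext v
    rw [LinearMap.comp_apply, Module.End.mul_apply]
    have h4 := LinearMap.congr_fun h3 (Y v)
    have h5 := LinearMap.congr_fun h2 v
    rw [LinearMap.comp_apply] at h4 h5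
    rw [h4, h5]

/-- **The number of common fixed vectors of `X` and `Y` is the same on `V` and on the dual of `V`**,
if `X` and `Y` commute and the order of `X` is not zero in `K`. -/
theorem card_fixed_dual [Module.Finite K V] {n : ℕ} (hn : (n : K) ≠ 0) {X Y : Module.End K V}
    (hX : X ^ n = 1) (hXY : Commute X Y) :
    Nat.card {v : V // X v = v ∧ Y v = v} =
      Nat.card {f : Module.Dual K V // f ∘ₗ X = f ∧ f ∘ₗ Y = f} := by
  have e1 : Nat.card {v : V // X v = v ∧ Y v = v} = Nat.card (LinearMap.ker (kop n X Y)) :=
    Nat.card_congr (Equiv.subtypeEquivRight fun v => (mem_ker_kop hn hX hXY v).symm)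
  have e2 : Nat.card {f : Module.Dual K V // f ∘ₗ X = f ∧ f ∘ₗ Y = f} =
      Nat.card (LinearMap.ker (kop n X Y).dualMap) :=
    Nat.card_congr (Equiv.subtypeEquivRight fun f => (mem_ker_dual_kop hn hX hXY f).symm)
  rw [e1, e2, Module.natCard_eq_pow_finrank (K := K) (V := LinearMap.ker (kop n X Y)),
    Module.natCard_eq_pow_finrank (K := K) (V := LinearMap.ker (kop n X Y).dualMap)]
  congr 1
  have h1 := LinearMap.finrank_range_add_finrank_ker (kop n X Y)
  have h2 := LinearMap.finrank_range_add_finrank_ker (kop n X Y).dualMap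
  have h3 := LinearMap.finrank_range_dualMap_eq_finrank_range (kop n X Y)
  have h4 := Subspace.dual_finrank_eq (K := K) (V := V)
  omega

end

end Pool.Agent.X209.AWD
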