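import Pool.Agent.Y63.AWC.Base
import Pool.Agent.X209.AWD.Lin

/-!
# Sums over orbits on a module and on its dual
-/

open scoped BigOperators Classical

set_option linter.unusedSectionVars false
set_option linter.style.haveILetI false

noncomputable section

namespace Pool.Agent.X209.AWD

open Pool.Agent.Y63.AWC

section

variable {p : ℕ} {G V : Type} [Group G] [AddCommGroup V] [Module (ZMod p) V]

/-- the sum of `F (G_v)` over representatives `v` of the orbits -/
def orbSum (F : Subgroup G → ℕ) (ρ : Representation (ZMod p) G V) : ℕ :=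
  ∑ᶠ o : Quotient (orbitSetoid ρ), F (vectorStabilizer ρ o.out)

lemma weightSum_eq (ρ : Representation (ZMod p) G V) :
    weightSum ρ = orbSum (fun H => numWeights p H) ρ := rfl

lemma mem_stab {ρ : Representation (ZMod p) G V} {v : V} {g : G} :
    g ∈ vectorStabilizer ρ v ↔ ρ g v = v := Iff.rfl

/-- stabilisers of points of one orbit are isomorphic -/
lemma stab_iso (ρ : Representation (ZMod p) G V) (v : V) (g : G) :
    Nonempty (vectorStabilizer ρ v ≃* vectorStabilizer ρ (ρ g v)) := by
  refine ⟨{ toFun := fun h => ⟨g * h * g⁻¹, ?_⟩, invFun := fun h => ⟨g⁻¹ * h * g, ?_⟩,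
            left_inv := ?_, right_inv := ?_, map_mul' := ?_ }⟩
  · rw [mem_stab, map_mul, map_mul, Module.End.mul_apply, Module.End.mul_apply,
      ← Module.End.mul_apply (ρ g⁻¹), ← map_mul, inv_mul_cancel, map_one, Module.End.one_apply,
      mem_stab.mp h.2]
  · rw [mem_stab, map_mul, map_mul, Module.End.mul_apply, Module.End.mul_apply, mem_stab.mp h.2,
      ← Module.End.mul_apply, ← map_mul, inv_mul_cancel, map_one, Module.End.one_apply]
  · intro h
    apply Subtype.ext
    change g⁻¹ * (g * h * g⁻¹) * g = h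
    group
  · intro h
    apply Subtype.ext
    change g * (g⁻¹ * h * g) * g⁻¹ = h
    group
  · intro h k
    apply Subtype.ext
    change g * (h * k) * g⁻¹ = g * h * g⁻¹ * (g * k * g⁻¹)
    group

theorem card_mul_orbSum [Finite G] [Fintype V] (F : Subgroup G → ℕ)
    (hF : ∀ H K : Subgroup G, Nonempty (H ≃* K) → F H = F K) (ρ : Representation (ZMod p) G V) :
    Nat.card G * orbSum F ρ = ∑ v : V, Nat.card (vectorStabilizer ρ v) * F (vectorStabilizer ρ v) := by
  letI : MulAction G V :=
    { smul := fun g v => ρ g v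
      one_smul := fun v => by
        change ρ 1 v = v
        rw [map_one, Module.End.one_apply]
      mul_smul := fun g h v => by
        change ρ (g * h) v = ρ g (ρ h v)
        rw [map_mul, Module.End.mul_apply] }
  have h := orbit_sum (G := G) (orbitSetoid ρ) (fun a b => Iff.rfl)
    (fun v => F (vectorStabilizer ρ v)) (by
      rintro v w ⟨g, hg⟩
      have := stab_iso ρ v g
      rw [hg] at this
      exact hF _ _ this)
  unfold orbSum
  rw [h]
  refine Finset.sum_congr rfl fun v _ => ?_
  congr 1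

/-- the class sum by triples -/
theorem sum_regular [Finite G] [Fintype V] (ρ : Representation (ZMod p) G V)
    [Fintype {q : G × G // ¬ p ∣ orderOf q.1 ∧ q.1 * q.2 = q.2 * q.1}] :
    ∑ v : V, Nat.card (vectorStabilizer ρ v) * numRegularClasses p (vectorStabilizer ρ v) =
      ∑ q : {q : G × G // ¬ p ∣ orderOf q.1 ∧ q.1 * q.2 = q.2 * q.1},
        Nat.card {v : V // ρ q.1.1 v = v ∧ ρ q.1.2 v = v} := by
  have h1 : ∀ v : V,
      Nat.card (vectorStabilizer ρ v) * numRegularClasses p (vectorStabilizer ρ v) =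
      Nat.card {q : {q : G × G // ¬ p ∣ orderOf q.1 ∧ q.1 * q.2 = q.2 * q.1} //
        ρ q.1.1 v = v ∧ ρ q.1.2 v = v} := by
    intro v
    rw [card_mul_numRegularClasses]
    refine Nat.card_congr
      { toFun := fun q => ⟨⟨(q.1.1, q.1.2), ?_, ?_⟩, q.1.1.2, q.1.2.2⟩
        invFun := fun q => ⟨(⟨q.1.1.1, q.2.1⟩, ⟨q.1.1.2, q.2.2⟩), ?_, ?_⟩
        left_inv := fun q => rfl
        right_inv := fun q => rfl }
    · have := q.2.1
      rwa [← Subgroup.orderOf_coe] at this
    · exact congrArg Subtype.val q.2.2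
    · have := q.1.2.1
      rw [← Subgroup.orderOf_coe]
      exact this
    · exact Subtype.ext q.1.2.2
  rw [Finset.sum_congr rfl fun v _ => h1 v]
  have e : (Σ v : V, {q : {q : G × G // ¬ p ∣ orderOf q.1 ∧ q.1 * q.2 = q.2 * q.1} //
        ρ q.1.1 v = v ∧ ρ q.1.2 v = v}) ≃
      (Σ q : {q : G × G // ¬ p ∣ orderOf q.1 ∧ q.1 * q.2 = q.2 * q.1},
        {v : V // ρ q.1.1 v = v ∧ ρ q.1.2 v = v}) :=
    { toFun := fun s => ⟨s.2.1, s.1, s.2.2⟩
      invFun := fun s => ⟨s.2.1, s.1, s.2.2⟩
      left_inv := fun s => rfl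
      right_inv := fun s => rfl }
  have h2 := Nat.card_congr e
  rw [Nat.card_sigma, Nat.card_sigma] at h2
  exact h2

variable [Fact p.Prime]

/-- **The sums of the numbers of regular classes of the stabilisers of a module and of its dual are
equal.** -/
theorem classSum_dual [Finite G] [Finite V] (ρ : Representation (ZMod p) G V) :
    orbSum (fun H => numRegularClasses p H) ρ = orbSum (fun H => numRegularClasses p H) ρ.dual := by
  have : Fintype V := Fintype.ofFinite V
  have : Finite (Module.Dual (ZMod p) V) :=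
    Finite.of_injective (fun f : Module.Dual (ZMod p) V => (f : V → ZMod p)) DFunLike.coe_injective
  have : Fintype (Module.Dual (ZMod p) V) := Fintype.ofFinite _
  have : Fintype {q : G × G // ¬ p ∣ orderOf q.1 ∧ q.1 * q.2 = q.2 * q.1} := Fintype.ofFinite _
  have hF : ∀ H K : Subgroup G, Nonempty (H ≃* K) →
      (fun H : Subgroup G => numRegularClasses p H) H =
        (fun H : Subgroup G => numRegularClasses p H) K :=
    fun H K ⟨e⟩ => numRegularClasses_congr e
  have h1 := card_mul_orbSum _ hF ρ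
  have h2 := card_mul_orbSum _ hF ρ.dual
  rw [sum_regular] at h1 h2
  refine Nat.eq_of_mul_eq_mul_left (Nat.card_pos (α := G)) ?_
  rw [h1, h2]
  refine Finset.sum_congr rfl fun q _ => ?_
  obtain ⟨⟨x, y⟩, hx, hxy⟩ := q
  have : Module.Finite (ZMod p) V := Module.Finite.of_finite
  have hn : ((orderOf x : ℕ) : ZMod p) ≠ 0 := by
    rw [Ne, ZMod.natCast_eq_zero_iff]
    exact hx
  have hX : (ρ x) ^ orderOf x = 1 := by
    rw [← map_pow, pow_orderOf_eq_one, map_one]
  have hXY : Commute (ρ x) (ρ y) := by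
    change ρ x * ρ y = ρ y * ρ x
    rw [← map_mul, ← map_mul, hxy]
  change Nat.card {v : V // ρ x v = v ∧ ρ y v = v} =
    Nat.card {v : Module.Dual (ZMod p) V // ρ.dual x v = v ∧ ρ.dual y v = v}
  rw [card_fixed_dual hn hX hXY]
  refine Nat.card_congr (Equiv.subtypeEquivRight fun f => ?_)
  have key : ∀ z : G, f ∘ₗ ρ z = f ↔ ρ.dual z f = f := by
    intro z
    have hd : ρ.dual z f = f ∘ₗ ρ z⁻¹ := rfl
    rw [hd]
    constructor
    · intro h
      conv_lhs => rw [← h]
      rw [LinearMap.comp_assoc]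
      change f ∘ₗ (ρ z * ρ z⁻¹) = f
      rw [← map_mul, mul_inv_cancel, map_one]
      rfl
    · intro h
      conv_lhs => rw [← h]
      rw [LinearMap.comp_assoc]
      change f ∘ₗ (ρ z⁻¹ * ρ z) = f
      rw [← map_mul, inv_mul_cancel, map_one]
      rfl
  rw [key, key]

end

end Pool.Agent.X209.AWD
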