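import Pool.Agent.X209.AWD.Count
import Pool.Agent.X209.AWD.Aug

/-!
# Weights and duality
-/

open scoped BigOperators Classical

set_option linter.unusedSectionVars false
set_option linter.style.haveILetI false

noncomputable section

namespace Pool.Agent.X209.AWD

open Pool.Agent.Y63.AWC

section

variable {p : ℕ} [hp : Fact p.Prime] {G V : Type} [Group G] [AddCommGroup V] [Module (ZMod p) V]

lemma numWeights_top [Finite G] : numWeights p (⊤ : Subgroup G) = numWeights p G :=
  numWeights_congr Subgroup.topEquiv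

lemma numRegularClasses_top [Finite G] :
    numRegularClasses p (⊤ : Subgroup G) = numRegularClasses p G :=
  numRegularClasses_congr Subgroup.topEquiv

/-- if the conjecture holds for all proper subgroups, only the fixed points matter -/
theorem weightSum_sub [Finite G] [Finite V]
    (hlt : ∀ H : Subgroup G, H ≠ ⊤ → numRegularClasses p H = numWeights p H)
    (ρ : Representation (ZMod p) G V) :
    (weightSum ρ : ℤ) - (orbSum (fun H => numRegularClasses p H) ρ : ℤ) =
      (Nat.card {v : V // ∀ g : G, ρ g v = v} : ℤ) *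
        ((numWeights p G : ℤ) - (numRegularClasses p G : ℤ)) := by
  have : Fintype V := Fintype.ofFinite V
  have h1 := card_mul_orbSum (fun H : Subgroup G => numRegularClasses p H)
    (fun H K ⟨e⟩ => numRegularClasses_congr e) ρ
  have h2 := card_mul_orbSum (fun H : Subgroup G => numWeights p H)
    (fun H K ⟨e⟩ => numWeights_congr e) ρ
  rw [← weightSum_eq] at h2
  have h3 : ∀ v : V, (Nat.card (vectorStabilizer ρ v) : ℤ) *
      ((numWeights p (vectorStabilizer ρ v) : ℤ) -
        (numRegularClasses p (vectorStabilizer ρ v) : ℤ)) =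
      if (∀ g : G, ρ g v = v) then (Nat.card G : ℤ) *
        ((numWeights p G : ℤ) - (numRegularClasses p G : ℤ)) else 0 := by
    intro v
    by_cases h : ∀ g : G, ρ g v = v
    · rw [if_pos h]
      have h4 : vectorStabilizer ρ v = ⊤ := by
        ext g
        simp only [Subgroup.mem_top, iff_true]
        exact h g
      rw [h4, numWeights_top, numRegularClasses_top, Subgroup.card_top]
    · rw [if_neg h]
      have h4 : vectorStabilizer ρ v ≠ ⊤ := by
        intro h5
        apply h
        intro g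
        have : g ∈ vectorStabilizer ρ v := by rw [h5]; exact Subgroup.mem_top g
        exact this
      rw [hlt _ h4, sub_self, mul_zero]
  have h0 : (Nat.card G : ℤ) ≠ 0 := by exact_mod_cast Nat.card_pos.ne'
  apply mul_left_cancel₀ h0
  have h5 : (Nat.card G : ℤ) * ((weightSum ρ : ℤ) -
      (orbSum (fun H => numRegularClasses p H) ρ : ℤ)) =
      ∑ v : V, (Nat.card (vectorStabilizer ρ v) : ℤ) *
      ((numWeights p (vectorStabilizer ρ v) : ℤ) -
        (numRegularClasses p (vectorStabilizer ρ v) : ℤ)) := by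
    rw [mul_sub, ← Nat.cast_mul, ← Nat.cast_mul, h1, h2, Nat.cast_sum, Nat.cast_sum,
      ← Finset.sum_sub_distrib]
    refine Finset.sum_congr rfl fun v _ => ?_
    push_cast
    ring
  rw [h5, Finset.sum_congr rfl fun v _ => h3 v, ← Finset.sum_filter, Finset.sum_const,
    nsmul_eq_mul, Nat.card_eq_fintype_card (α := {v : V // ∀ g : G, ρ g v = v}),
    Fintype.card_subtype]
  ring

/-- **The effect of duality.** If the conjecture holds for all proper subgroups of `G`, then the
difference of the two sums of weights is a multiple of the error of the conjecture for `G`. -/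
theorem duality_defect [Finite G] [Finite V]
    (hlt : ∀ H : Subgroup G, H ≠ ⊤ → numRegularClasses p H = numWeights p H)
    (ρ : Representation (ZMod p) G V) :
    (weightSum ρ : ℤ) - (weightSum ρ.dual : ℤ) =
      ((Nat.card {v : V // ∀ g : G, ρ g v = v} : ℤ) -
        (Nat.card {f : Module.Dual (ZMod p) V // ∀ g : G, ∀ v, f (ρ g v) = f v} : ℤ)) *
        ((numWeights p G : ℤ) - (numRegularClasses p G : ℤ)) := by
  have : Finite (Module.Dual (ZMod p) V) :=
    Finite.of_injective (fun f : Module.Dual (ZMod p) V => (f : V → ZMod p)) DFunLike.coe_injective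
  have h1 := weightSum_sub hlt ρ
  have h2 := weightSum_sub hlt ρ.dual
  rw [← classSum_dual ρ] at h2
  have h3 : Nat.card {f : Module.Dual (ZMod p) V // ∀ g : G, ρ.dual g f = f} =
      Nat.card {f : Module.Dual (ZMod p) V // ∀ g : G, ∀ v, f (ρ g v) = f v} := by
    refine Nat.card_congr (Equiv.subtypeEquivRight fun f => ?_)
    have hd : ∀ (g : G) (v : V), ρ.dual g f v = f (ρ g⁻¹ v) := fun g v => rfl
    constructor
    · intro h g v
      have h4 := LinearMap.congr_fun (h g⁻¹) v
      rwa [hd, inv_inv] at h4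
    · intro h g
      ext v
      rw [hd, h]
  rw [h3] at h2
  linarith

/-- stabilisers of points of finite groups: the easy direction -/
theorem dualInvariant_of [Finite G] [Finite V]
    (h : ∀ H : Subgroup G, numRegularClasses p H = numWeights p H)
    (ρ : Representation (ZMod p) G V) : DualInvariant ρ := by
  have h1 := duality_defect (fun H _ => h H) ρ
  have h2 : numRegularClasses p G = numWeights p G := by
    have := h ⊤
    rwa [numWeights_top, numRegularClasses_top] at this
  rw [h2, sub_self, mul_zero] at h1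
  unfold DualInvariant
  have h3 : (weightSum ρ : ℤ) = (weightSum ρ.dual : ℤ) := by linarith
  exact_mod_cast h3

end

section

variable {p : ℕ} [hp : Fact p.Prime] {G : Type} [Group G] [Finite G]

/-- the homomorphism -/
def IsHomOn.hom {C : Subgroup G} {h : G → ZMod p} (hh : IsHomOn C h) :
    G →* Multiplicative (ZMod p) where
  toFun g := Multiplicative.ofAdd (h g)
  map_one' := by rw [hh.one]; rfl
  map_mul' a b := by rw [hh.mul]; rfl

lemma IsHomOn.zpow {C : Subgroup G} {h : G → ZMod p} (hh : IsHomOn C h) (x : G) (k : ℤ) :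
    h (x ^ k) = k * h x := by
  have h1 := map_zpow hh.hom x k
  have h2 := congrArg Multiplicative.toAdd h1
  rw [toAdd_zpow] at h2
  rw [← zsmul_eq_mul]
  exact h2

lemma IsHomOn.pow {C : Subgroup G} {h : G → ZMod p} (hh : IsHomOn C h) (x : G) (k : ℕ) :
    h (x ^ k) = k * h x := by
  have := hh.zpow x k
  rw [zpow_natCast] at this
  rw [this]
  push_cast
  rfl

lemma conj_pow_eq {g x : G} {k : ℤ} (h : g * x * g⁻¹ = x ^ k) (j : ℕ) :
    g ^ j * x * (g ^ j)⁻¹ = x ^ (k ^ j) := by
  induction j with
  | zero => simp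
  | succ j ih =>
    have h1 : g ^ (j + 1) * x * (g ^ (j + 1))⁻¹ = g * (g ^ j * x * (g ^ j)⁻¹) * g⁻¹ := by
      rw [pow_succ']
      group
    rw [h1, ih]
    have h2 : g * x ^ (k ^ j) * g⁻¹ = (g * x * g⁻¹) ^ (k ^ j) := by
      rw [conj_zpow]
    rw [h2, h, ← zpow_mul, pow_succ']

/-- a group with a cyclic Sylow `p`-subgroup and a normal subgroup of index `p` has a normal
`p`-complement -/
theorem cyclic_case {x : G} {a : ℕ} (hx : x ^ p ^ a = 1) {h : G → ZMod p}
    (hh : IsHomOn (⊥ : Subgroup G) h) (hx0 : h x ≠ 0)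
    (hidx : ¬ p ∣ (Subgroup.zpowers x).index) :
    ∃ K : Subgroup G, ∃ _ : K.Normal, IsCyclic (G ⧸ K) ∧ IsPGroup p (G ⧸ K) ∧
      ¬ p ∣ Nat.card K := by
  have hP : IsPGroup p (Subgroup.zpowers x) := by
    intro y
    refine ⟨a, ?_⟩
    obtain ⟨y, k, rfl⟩ := y
    apply Subtype.ext
    change (x ^ k) ^ p ^ a = 1
    rw [← zpow_natCast, ← zpow_mul, mul_comm, zpow_mul, zpow_natCast, hx, one_zpow]
  let P : Sylow p G := hP.toSylow hidx
  have hPc : (P : Subgroup G) = Subgroup.zpowers x := rfl
  have hord : (orderOf x : ℤ) ∣ (p : ℤ) ^ (a + 1) := by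
    have h1 : orderOf x ∣ p ^ a := orderOf_dvd_of_pow_eq_one hx
    exact_mod_cast h1.trans (pow_dvd_pow p (Nat.le_succ a))
  have hnc : Subgroup.normalizer ((P : Subgroup G) : Set G) ≤
      Subgroup.centralizer ((P : Subgroup G) : Set G) := by
    intro g hg
    rw [hPc] at hg ⊢
    have hgx : g * x * g⁻¹ ∈ Subgroup.zpowers x :=
      (Subgroup.mem_normalizer_iff.mp hg x).mp (Subgroup.mem_zpowers x)
    obtain ⟨k, hk⟩ := hgx
    have hk' : g * x * g⁻¹ = x ^ k := hk.symm
    -- k = 1 mod p
    have h1 : h (g * x * g⁻¹) = h x := by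
      rw [hh.mul, hh.mul, hh.inv]
      ring
    rw [hk', hh.zpow] at h1
    have h2 : (k : ZMod p) = 1 := by
      have h3 : ((k : ZMod p) - 1) * h x = 0 := by
        rw [sub_mul, h1, one_mul, sub_self]
      rcases mul_eq_zero.mp h3 with h4 | h4
      · exact sub_eq_zero.mp h4
      · exact absurd h4 hx0
    have h3 : (p : ℤ) ∣ k - 1 := by
      have h4 : ((k - 1 : ℤ) : ZMod p) = 0 := by
        push_cast
        rw [h2, sub_self]
      exact (ZMod.intCast_zmod_eq_zero_iff_dvd _ _).mp h4
    have h4 : (p : ℤ) ^ (a + 1) ∣ k ^ p ^ a - 1 ^ p ^ a := dvd_sub_pow_of_dvd_sub h3 a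
    rw [one_pow] at h4
    have h5 : x ^ (k ^ p ^ a) = x := by
      conv_rhs => rw [← zpow_one x]
      rw [zpow_eq_zpow_iff_modEq]
      exact (Int.modEq_iff_dvd.mpr (hord.trans h4)).symm
    have hc1 : Commute (g ^ p ^ a) x := by
      have h6 := conj_pow_eq hk' (p ^ a)
      rw [h5, mul_inv_eq_iff_eq_mul] at h6
      exact h6
    -- the p-part of g
    obtain ⟨m, b, hm, hgo⟩ : ∃ m b : ℕ, ¬ p ∣ m ∧ orderOf g = p ^ b * m := by
      obtain ⟨b, m, hm, h7⟩ := Nat.exists_eq_pow_mul_and_not_dvd (orderOf_pos g).ne' p hp.out.ne_one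
      exact ⟨m, b, hm, h7⟩
    have hgm : (g ^ m) ^ p ^ b = 1 := by
      rw [← pow_mul, mul_comm m, ← hgo, pow_orderOf_eq_one]
    have hQ : IsPGroup p (Subgroup.zpowers (g ^ m)) := by
      intro y
      refine ⟨b, ?_⟩
      obtain ⟨y, j, rfl⟩ := y
      apply Subtype.ext
      change ((g ^ m) ^ j) ^ p ^ b = 1
      rw [← zpow_natCast, ← zpow_mul, mul_comm, zpow_mul, zpow_natCast, hgm, one_zpow]
    have hle : Subgroup.zpowers (g ^ m) ≤ Subgroup.normalizer ((Subgroup.zpowers x : Subgroup G) : Set G) := by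
      rw [Subgroup.zpowers_le]
      exact Subgroup.pow_mem _ hg m
    have hsup : IsPGroup p ↥(Subgroup.zpowers (g ^ m) ⊔ Subgroup.zpowers x) :=
      IsPGroup.to_sup_of_normal_right' hQ hP hle
    have heq := P.is_maximal' hsup (by rw [hPc]; exact le_sup_right)
    have hmem : g ^ m ∈ Subgroup.zpowers x := by
      have h8 : g ^ m ∈ Subgroup.zpowers (g ^ m) ⊔ Subgroup.zpowers x :=
        (le_sup_left : _ ≤ Subgroup.zpowers (g ^ m) ⊔ Subgroup.zpowers x) (Subgroup.mem_zpowers _)
      rw [heq] at h8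
      exact h8
    have hc2 : Commute (g ^ m) x := by
      obtain ⟨j, hj⟩ := hmem
      rw [← hj]
      exact (Commute.refl x).zpow_left j
    have hcop : Nat.gcd (p ^ a) m = 1 :=
      Nat.Coprime.pow_left _ ((Nat.Prime.coprime_iff_not_dvd hp.out).mpr hm)
    have hc : Commute g x := by
      have h9 := Nat.gcd_eq_gcd_ab (p ^ a) m
      rw [hcop] at h9
      have h10 : g = (g ^ p ^ a) ^ (Nat.gcdA (p ^ a) m) * (g ^ m) ^ (Nat.gcdB (p ^ a) m) := by
        rw [← zpow_natCast g (p ^ a), ← zpow_natCast g m, ← zpow_mul, ← zpow_mul, ← zpow_add, ← h9]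
        simp
      rw [h10]
      exact (hc1.zpow_left _).mul_left (hc2.zpow_left _)
    rw [Subgroup.mem_centralizer_iff]
    rintro y ⟨j, rfl⟩
    exact ((hc.zpow_right j).eq).symm
  have hcompl := MonoidHom.ker_transferSylow_isComplement' P hnc
  let K : Subgroup G := (MonoidHom.transferSylow P hnc).ker
  have hK : K.Normal := MonoidHom.normal_ker _
  let e : G ⧸ K ≃* (P : Subgroup G) := hcompl.symm.QuotientMulEquiv
  have hPcyc : IsCyclic (P : Subgroup G) := by
    rw [hPc]
    infer_instance
  refine ⟨K, hK, ?_, ?_, ?_⟩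
  · exact isCyclic_of_surjective e.symm e.symm.surjective
  · exact P.isPGroup'.of_equiv e.symm
  · have h1 : (P : Subgroup G).index = Nat.card K := hcompl.index_eq_card
    rw [← h1, hPc]
    exact hidx

/-- **The induction step.** -/
theorem step
    (hlt : ∀ H : Subgroup G, H ≠ ⊤ → numRegularClasses p H = numWeights p H)
    (hdual : ∀ x : G, (∃ a : ℕ, x ^ p ^ a = 1) →
      DualInvariant (augRep p (Subgroup.zpowers x))) :
    numRegularClasses p G = numWeights p G := by
  by_contra hne
  by_cases hpG : p ∣ Nat.card G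
  swap
  · apply hne
    have hs : Subsingleton (G ⧸ (⊤ : Subgroup G)) := QuotientGroup.subsingleton_quotient_top
    refine base_case (⊤ : Subgroup G) (IsPGroup.of_card (n := 0) ?_) ?_
    · rw [pow_zero]
      exact Nat.card_eq_one_iff_unique.mpr ⟨hs, ⟨1⟩⟩
    · rwa [Subgroup.card_top]
  have hd0 : (numWeights p G : ℤ) - (numRegularClasses p G : ℤ) ≠ 0 := by
    intro h
    apply hne
    have : (numWeights p G : ℤ) = (numRegularClasses p G : ℤ) := by linarith
    exact_mod_cast this.symm
  -- the number of homomorphisms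
  have hcount : ∀ x : G, (∃ a : ℕ, x ^ p ^ a = 1) → p ∣ (Subgroup.zpowers x).index →
      Nat.card {h : G → ZMod p // IsHomOn (Subgroup.zpowers x) h} = p := by
    intro x hx hpx
    have : Finite (AugModule p (Subgroup.zpowers x)) := by
      have : Finite (G ⧸ Subgroup.zpowers x → ZMod p) := inferInstance
      exact Finite.of_injective (fun f : AugModule p (Subgroup.zpowers x) => f.1)
        Subtype.val_injective
    have h1 := duality_defect hlt (augRep p (Subgroup.zpowers x))
    have h2 := hdual x hx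
    unfold DualInvariant at h2
    rw [h2, sub_self] at h1
    rcases mul_eq_zero.mp h1.symm with h3 | h3
    · have : Fintype (G ⧸ Subgroup.zpowers x) := Fintype.ofFinite _
      rw [← Nat.card_congr (fixedEquiv (p := p) (C := Subgroup.zpowers x) hpx),
        ← Nat.card_congr (dualEquiv (p := p) (C := Subgroup.zpowers x))] at h3
      have h4 : Nat.card (ZMod p) = p := by
        rw [Nat.card_eq_fintype_card, ZMod.card]
      rw [h4] at h3
      have h5 : (Nat.card {h : G → ZMod p // IsHomOn (Subgroup.zpowers x) h} : ℤ) = p := by linarith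
      exact_mod_cast h5
    · exact absurd h3 hd0
  -- a nonzero homomorphism
  have hone := hcount 1 ⟨0, one_pow _⟩ (by rw [Subgroup.zpowers_one_eq_bot, Subgroup.index_bot]; exact hpG)
  rw [Subgroup.zpowers_one_eq_bot] at hone
  have hfin : Finite {h : G → ZMod p // IsHomOn (⊥ : Subgroup G) h} := inferInstance
  have hnt : Nontrivial {h : G → ZMod p // IsHomOn (⊥ : Subgroup G) h} := by
    rw [← Finite.one_lt_card_iff_nontrivial, hone]
    exact hp.out.one_lt
  obtain ⟨h, hh, hy⟩ : ∃ h : G → ZMod p, IsHomOn (⊥ : Subgroup G) h ∧ ∃ y, h y ≠ 0 := by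
    obtain ⟨h1, h2, h12⟩ := hnt
    by_cases h3 : ∃ y, h1.1 y ≠ 0
    · exact ⟨h1.1, h1.2, h3⟩
    · by_cases h4 : ∃ y, h2.1 y ≠ 0
      · exact ⟨h2.1, h2.2, h4⟩
      · exfalso
        apply h12
        apply Subtype.ext
        funext y
        push Not at h3 h4
        rw [h3, h4]
  obtain ⟨y, hy⟩ := hy
  obtain ⟨b, m, hm, ho⟩ := Nat.exists_eq_pow_mul_and_not_dvd (orderOf_pos y).ne' p hp.out.ne_one
  have hx : (y ^ m) ^ p ^ b = 1 := by
    rw [← pow_mul, mul_comm, ← ho, pow_orderOf_eq_one]
  have hx0 : h (y ^ m) ≠ 0 := by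
    rw [hh.pow]
    refine mul_ne_zero ?_ hy
    rw [Ne, ZMod.natCast_eq_zero_iff]
    exact hm
  by_cases hidx : p ∣ (Subgroup.zpowers (y ^ m)).index
  · -- too few homomorphisms
    have h1 := hcount (y ^ m) ⟨b, hx⟩ hidx
    have h2 : {h : G → ZMod p | IsHomOn (Subgroup.zpowers (y ^ m)) h} ⊆
        {h : G → ZMod p | IsHomOn (⊥ : Subgroup G) h} := by
      intro h' hh'
      exact ⟨hh'.mul, fun c hc => hh'.zero c ((bot_le : (⊥ : Subgroup G) ≤ _) hc)⟩
    have h3 := Set.eq_of_subset_of_ncard_le h2 (by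
      rw [← Nat.card_coe_set_eq, ← Nat.card_coe_set_eq]
      exact (hone.trans h1.symm).le)
    have h4 : h ∈ {h : G → ZMod p | IsHomOn (Subgroup.zpowers (y ^ m)) h} := by
      rw [h3]
      exact hh
    exact hx0 (h4.zero _ (Subgroup.mem_zpowers _))
  · obtain ⟨K, hK, h1, h2, h3⟩ := cyclic_case hx hh hx0 hidx
    exact hne (base_case K h2 h3)

end

end Pool.Agent.X209.AWD
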